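import Mathlib
import Pool.Agent.Q254.Theta.Stm

/-! JOB AL of the project of helper254 on `MP_3ef01f_nt`. -/

namespace Pool.Agent.Q146.Theta

open PowerSeries Finset
open Pool.Agent.Q254.Theta (dl)

section general

variable {R : Type*} [CommRing R] (g : R⟦X⟧)

lemma dl_add (f h : R⟦X⟧) : dl g (f + h) = dl g f + dl g h := by
  unfold dl; rw [map_add, mul_add]

lemma dl_zero : dl g 0 = 0 := by unfold dl; rw [map_zero, mul_zero]

lemma dl_mul (f h : R⟦X⟧) : dl g (f * h) = f * dl g h + dl g f * h := by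
  unfold dl
  rw [Derivation.leibniz]
  simp only [smul_eq_mul]
  ring

lemma dl_C (c : R) : dl g (C c) = 0 := by
  unfold dl; rw [derivative_C, mul_zero]

lemma dl_natCast (c : ℕ) : dl g (c : R⟦X⟧) = 0 := by
  have : (c : R⟦X⟧) = C (c : R) := by simp
  rw [this, dl_C]

lemma dl_C_mul (c : R) (f : R⟦X⟧) : dl g (C c * f) = C c * dl g f := by
  rw [dl_mul, dl_C, zero_mul, add_zero]

lemma dl_natCast_mul (c : ℕ) (f : R⟦X⟧) : dl g ((c : R⟦X⟧) * f) = c * dl g f := by
  rw [dl_mul, dl_natCast, zero_mul, add_zero]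

lemma dl_neg (f : R⟦X⟧) : dl g (-f) = -dl g f := by
  unfold dl; rw [map_neg, mul_neg]

lemma dl_sub (f h : R⟦X⟧) : dl g (f - h) = dl g f - dl g h := by
  rw [sub_eq_add_neg, dl_add, dl_neg, sub_eq_add_neg]

lemma dl_sum {ι : Type*} (s : Finset ι) (F : ι → R⟦X⟧) :
    dl g (∑ i ∈ s, F i) = ∑ i ∈ s, dl g (F i) := by
  classical
  induction s using Finset.induction_on with
  | empty => simp [dl_zero]
  | insert a s ha ih => rw [Finset.sum_insert ha, Finset.sum_insert ha, dl_add, ih]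

lemma dl_pow (f : R⟦X⟧) (n : ℕ) : dl g (f ^ n) = n * f ^ (n - 1) * dl g f := by
  unfold dl
  rw [Derivation.leibniz_pow]
  simp only [smul_eq_mul, nsmul_eq_mul]
  ring

lemma dl_X : dl g X = g := by
  unfold dl; rw [derivative_X, mul_one]

lemma it_zero (n : ℕ) : (dl g)^[n] 0 = 0 := by
  induction n with
  | zero => rfl
  | succ n ih => rw [Function.iterate_succ_apply', ih, dl_zero]

lemma it_add (n : ℕ) (f h : R⟦X⟧) : (dl g)^[n] (f + h) = (dl g)^[n] f + (dl g)^[n] h := by
  induction n with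
  | zero => rfl
  | succ n ih => rw [Function.iterate_succ_apply', Function.iterate_succ_apply',
      Function.iterate_succ_apply', ih, dl_add]

lemma it_sub (n : ℕ) (f h : R⟦X⟧) : (dl g)^[n] (f - h) = (dl g)^[n] f - (dl g)^[n] h := by
  induction n with
  | zero => rfl
  | succ n ih => rw [Function.iterate_succ_apply', Function.iterate_succ_apply',
      Function.iterate_succ_apply', ih, dl_sub]

lemma it_C_mul (n : ℕ) (c : R) (f : R⟦X⟧) : (dl g)^[n] (C c * f) = C c * (dl g)^[n] f := by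
  induction n with
  | zero => rfl
  | succ n ih => rw [Function.iterate_succ_apply', Function.iterate_succ_apply', ih, dl_C_mul]

lemma it_natCast_mul (n : ℕ) (c : ℕ) (f : R⟦X⟧) :
    (dl g)^[n] ((c : R⟦X⟧) * f) = c * (dl g)^[n] f := by
  induction n with
  | zero => rfl
  | succ n ih => rw [Function.iterate_succ_apply', Function.iterate_succ_apply', ih,
      dl_natCast_mul]

/-- Leibniz formula -/
lemma it_mul (n : ℕ) (f h : R⟦X⟧) : (dl g)^[n] (f * h) =
    ∑ ij ∈ HasAntidiagonal.antidiagonal n,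
      n.choose ij.1 • ((dl g)^[ij.1] f * (dl g)^[ij.2] h) := by
  induction n with
  | zero => simp
  | succ n ih =>
    rw [Function.iterate_succ_apply', ih, dl_sum,
      Finset.sum_antidiagonal_choose_succ_nsmul
        (fun i j => (dl g)^[i] f * (dl g)^[j] h) n, ← Finset.sum_add_distrib]
    refine Finset.sum_congr rfl fun ij hij => ?_
    rw [HasAntidiagonal.mem_antidiagonal] at hij
    have h1 : n.choose ij.2 = n.choose ij.1 := by
      rw [← hij, add_comm, Nat.choose_symm_add]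
    rw [h1, nsmul_eq_mul, nsmul_eq_mul, nsmul_eq_mul, dl_natCast_mul, dl_mul,
      Function.iterate_succ_apply', Function.iterate_succ_apply']
    ring

/-- the sums of the proof -/
noncomputable def T (s : R⟦X⟧) (m n : ℕ) (f : R⟦X⟧) : R⟦X⟧ :=
  ∑ j ∈ range (m + 1), (m.choose j : R⟦X⟧) * (-s) ^ (m - j) * (dl g)^[n] (s ^ j * f)

lemma T_zero_right (s : R⟦X⟧) (m : ℕ) (f : R⟦X⟧) (hm : m ≠ 0) : T g s m 0 f = 0 := by
  have h1 : T g s m 0 f = (s + -s) ^ m * f := by
    rw [add_pow, Finset.sum_mul]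
    unfold T
    refine Finset.sum_congr rfl fun j _ => ?_
    simp only [Function.iterate_zero, id_eq]
    ring
  rw [h1, add_neg_cancel, zero_pow hm, zero_mul]

lemma T_succ (s : R⟦X⟧) (m n : ℕ) (f : R⟦X⟧) :
    T g s (m + 1) (n + 1) f = dl g (T g s (m + 1) n f) + ((m + 1 : ℕ) : R⟦X⟧) * dl g s *
      T g s m n f := by
  have h1 : dl g (T g s (m + 1) n f) = T g s (m + 1) (n + 1) f -
      ∑ j ∈ range (m + 2), (((m + 1).choose j * (m + 1 - j) : ℕ) : R⟦X⟧) * (-s) ^ (m - j) *
        dl g s * (dl g)^[n] (s ^ j * f) := by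
    unfold T
    rw [dl_sum, ← Finset.sum_sub_distrib]
    refine Finset.sum_congr rfl fun j hj => ?_
    rw [dl_mul, dl_natCast_mul, dl_pow, dl_neg, Function.iterate_succ_apply']
    have e1 : m + 1 - j - 1 = m - j := by omega
    rw [e1]
    push_cast
    ring
  have h2 : ∑ j ∈ range (m + 2), (((m + 1).choose j * (m + 1 - j) : ℕ) : R⟦X⟧) *
      (-s) ^ (m - j) * dl g s * (dl g)^[n] (s ^ j * f) =
      ((m + 1 : ℕ) : R⟦X⟧) * dl g s * T g s m n f := by
    rw [Finset.sum_range_succ]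
    have e2 : m + 1 - (m + 1) = 0 := Nat.sub_self _
    rw [e2, Nat.mul_zero, Nat.cast_zero, zero_mul, zero_mul, zero_mul, add_zero]
    unfold T
    rw [Finset.mul_sum]
    refine Finset.sum_congr rfl fun j hj => ?_
    rw [Finset.mem_range] at hj
    have e3 : (m + 1).choose j * (m + 1 - j) = (m + 1) * m.choose j := by
      have := Nat.choose_mul_succ_eq m j
      rw [← this]
      ring
    rw [e3]
    push_cast
    ring
  rw [h1, h2]
  ring

lemma T_eq (s : R⟦X⟧) (f : R⟦X⟧) (n : ℕ) : (∀ m, n < m → T g s m n f = 0) ∧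
    T g s n n f = (n.factorial : R⟦X⟧) * (dl g s) ^ n * f := by
  induction n with
  | zero =>
    refine ⟨fun m hm => T_zero_right g s m f (by omega), ?_⟩
    simp [T]
  | succ n ih =>
    constructor
    · intro m hm
      obtain ⟨m, rfl⟩ : ∃ k, m = k + 1 := ⟨m - 1, by omega⟩
      rw [T_succ, ih.1 (m + 1) (by omega), ih.1 m (by omega), dl_zero, mul_zero, add_zero]
    · rw [T_succ, ih.1 (n + 1) (by omega), ih.2, dl_zero, zero_add, Nat.factorial_succ]
      push_cast
      ring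

end general

section char

variable {p : ℕ} [Fact p.Prime] (g : (ZMod p)⟦X⟧)

instance : CharP (ZMod p)⟦X⟧ p := by
  refine ⟨fun x => ?_⟩
  have h1 : ((x : ℕ) : (ZMod p)⟦X⟧) = C (x : ZMod p) := by simp
  rw [h1]
  constructor
  · intro h
    have h2 := congrArg constantCoeff h
    simp only [map_zero] at h2
    rw [constantCoeff_C] at h2
    exact (CharP.cast_eq_zero_iff (ZMod p) p x).1 h2
  · intro h
    rw [(CharP.cast_eq_zero_iff (ZMod p) p x).2 h, map_zero]

lemma itp_mul (f h : (ZMod p)⟦X⟧) :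
    (dl g)^[p] (f * h) = f * (dl g)^[p] h + (dl g)^[p] f * h := by
  have hp : p.Prime := Fact.out
  rw [it_mul, Finset.Nat.sum_antidiagonal_eq_sum_range_succ_mk, Finset.sum_range_succ]
  obtain ⟨q, hq⟩ : ∃ q, p = q + 1 := ⟨p - 1, by have := hp.pos; omega⟩
  have h1 : ∑ k ∈ range p, p.choose k • ((dl g)^[k] f * (dl g)^[p - k] h) =
      f * (dl g)^[p] h := by
    rw [Finset.sum_eq_single 0]
    · simp
    · intro k hk hk0
      rw [Finset.mem_range] at hk
      have h2 : p ∣ p.choose k := hp.dvd_choose_self hk0 hk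
      rw [nsmul_eq_mul, (CharP.cast_eq_zero_iff (ZMod p)⟦X⟧ p _).2 h2, zero_mul]
    · intro h3
      exact absurd (Finset.mem_range.2 hp.pos) h3
  rw [h1]
  simp

lemma itp_C (c : ZMod p) : (dl g)^[p] (C c) = 0 := by
  have hp : p.Prime := Fact.out
  obtain ⟨q, hq⟩ : ∃ q, p = q + 1 := ⟨p - 1, by have := hp.pos; omega⟩
  have h1 : (dl g)^[q + 1] (C c : (ZMod p)⟦X⟧) = 0 := by
    rw [Function.iterate_succ_apply, dl_C, it_zero]
  exact hq ▸ h1

/-- the `p`-th iterate is a multiple of the derivative -/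
lemma itp_eq (f : (ZMod p)⟦X⟧) :
    (dl g)^[p] f = (dl g)^[p] X * derivative (ZMod p) f := by
  obtain ⟨E, hE⟩ : ∃ E : (ZMod p)⟦X⟧ → (ZMod p)⟦X⟧, E = fun f => (dl g)^[p] f -
    (dl g)^[p] X * derivative (ZMod p) f := ⟨_, rfl⟩
  have hE' : ∀ f, E f = (dl g)^[p] f - (dl g)^[p] X * derivative (ZMod p) f := fun f => by rw [hE]
  have hadd : ∀ f h, E (f + h) = E f + E h := by
    intro f h
    rw [hE', hE', hE', it_add, map_add]
    ring
  have hmul : ∀ f h, E (f * h) = f * E h + E f * h := by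
    intro f h
    rw [hE', hE', hE', itp_mul, Derivation.leibniz]
    simp only [smul_eq_mul]
    ring
  have hC : ∀ c : ZMod p, E (C c) = 0 := by
    intro c
    rw [hE', itp_C, derivative_C]
    ring
  have hX : E X = 0 := by
    rw [hE', derivative_X]
    ring
  have hXn : ∀ n, E (X ^ n) = 0 := by
    intro n
    induction n with
    | zero =>
      have := hC 1
      rw [map_one] at this
      rw [pow_zero]
      exact this
    | succ n ih => rw [pow_succ, hmul, hX, ih]; ring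
  have hpoly : ∀ P : Polynomial (ZMod p), E (P : (ZMod p)⟦X⟧) = 0 := by
    intro P
    induction P using Polynomial.induction_on' with
    | add P Q hP hQ => rw [Polynomial.coe_add, hadd, hP, hQ, add_zero]
    | monomial n a =>
      have : ((Polynomial.monomial n a : Polynomial (ZMod p)) : (ZMod p)⟦X⟧) = C a * X ^ n := by
        rw [Polynomial.coe_monomial, monomial_eq_C_mul_X_pow]
      rw [this, hmul, hC, hXn]
      ring
  have key : E f = 0 := by
    ext n
    have h1 : ∃ h : (ZMod p)⟦X⟧, f = ((trunc (n + 1) f : Polynomial (ZMod p)) : (ZMod p)⟦X⟧) + X ^ (n + 1) * h := by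
      have h2 : X ^ (n + 1) ∣ f - ((trunc (n + 1) f : Polynomial (ZMod p)) : (ZMod p)⟦X⟧) := by
        rw [X_pow_dvd_iff]
        intro m hm
        rw [map_sub, Polynomial.coeff_coe, coeff_trunc, if_pos hm, sub_self]
      obtain ⟨h, hh⟩ := h2
      exact ⟨h, by rw [← hh]; ring⟩
    obtain ⟨h, hh⟩ := h1
    rw [hh, hadd, hpoly, hmul, hXn, zero_mul, add_zero, zero_add, map_zero]
    have h3 : X ^ (n + 1) ∣ X ^ (n + 1) * E h := Dvd.intro _ rfl
    rw [X_pow_dvd_iff] at h3
    exact h3 n (Nat.lt_succ_self n)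
  rw [hE', sub_eq_zero] at key
  exact key

/-- The formula for `δ^(p-1)(X^(p-1) g)`. -/
lemma itp_sub_one : (dl g)^[p - 1] (X ^ (p - 1) * g) =
    X ^ (p - 1) * (dl g)^[p] X - g ^ p := by
  have hp : p.Prime := Fact.out
  obtain ⟨q, hq⟩ : ∃ q, q = p - 1 := ⟨_, rfl⟩
  have hq1 : p = q + 1 := by have := hp.pos; omega
  have hq0 : q ≠ 0 := by have := hp.two_le; omega
  rw [← hq]
  have h1 := (T_eq g X g q).2
  rw [dl_X] at h1
  have h2 : ((q.factorial : ℕ) : (ZMod p)⟦X⟧) = -1 := by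
    have h3 : ((q.factorial : ℕ) : (ZMod p)⟦X⟧) = C ((q.factorial : ℕ) : ZMod p) := by simp
    rw [h3, hq, ZMod.wilsons_lemma, map_neg, map_one]
  have h4 : -1 * g ^ q * g = -g ^ p := by
    rw [mul_assoc, ← pow_succ, ← hq1]
    ring
  rw [h2, h4] at h1
  unfold T at h1
  rw [Finset.sum_range_succ, Nat.choose_self, Nat.cast_one, Nat.sub_self, pow_zero] at h1
  have h5 : ∀ j ∈ range q, ((q.choose j : ℕ) : (ZMod p)⟦X⟧) * (-X) ^ (q - j) *
      (dl g)^[q] (X ^ j * g) = (((-1) ^ j * ((1 : (ZMod p)⟦X⟧)) ^ (q - j) * ((q.choose j : ℕ) : (ZMod p)⟦X⟧)) *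
        (-1) ^ q) * (X ^ q * (dl g)^[p] X) := by
    intro j hj
    rw [Finset.mem_range] at hj
    have h6 : (dl g)^[q] (X ^ j * g) = X ^ j * (dl g)^[p] X := by
      have h7 : dl g (X ^ (j + 1)) = ((j + 1 : ℕ) : (ZMod p)⟦X⟧) * (X ^ j * g) := by
        rw [dl_pow, dl_X, Nat.add_sub_cancel]
        ring
      have h8 : (dl g)^[q] (dl g (X ^ (j + 1))) =
          ((j + 1 : ℕ) : (ZMod p)⟦X⟧) * (X ^ j * (dl g)^[p] X) := by
        rw [← Function.iterate_succ_apply, Nat.succ_eq_add_one, ← hq1, itp_eq,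
          Derivation.leibniz_pow, derivative_X]
        simp only [Nat.add_sub_cancel, smul_eq_mul, nsmul_eq_mul, mul_one]
        ring
      rw [h7, it_natCast_mul] at h8
      have h9 : ((j + 1 : ℕ) : (ZMod p)⟦X⟧) ≠ 0 := by
        intro h10
        have h11 := (CharP.cast_eq_zero_iff (ZMod p)⟦X⟧ p (j + 1)).1 h10
        have := Nat.le_of_dvd (Nat.succ_pos j) h11
        omega
      exact mul_left_cancel₀ h9 h8
    rw [h6]
    have h12 : (-X : (ZMod p)⟦X⟧) ^ (q - j) = (-1) ^ j * (-1) ^ q * X ^ (q - j) := by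
      rw [neg_pow]
      congr 1
      have h13 : q = (q - j) + j := by omega
      have h14 : ((-1 : (ZMod p)⟦X⟧)) ^ j * (-1) ^ q = (-1) ^ (q - j) := by
        rw [← pow_add]
        have h15 : j + q = (q - j) + 2 * j := by omega
        rw [h15, pow_add, pow_mul]
        simp
      exact h14.symm
    have h16 : (X : (ZMod p)⟦X⟧) ^ q = X ^ (q - j) * X ^ j := by
      rw [← pow_add]
      congr 1
      omega
    rw [h12, h16, one_pow]
    ring
  rw [Finset.sum_congr rfl h5, ← Finset.sum_mul, ← Finset.sum_mul] at h1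
  have h6 : ∑ j ∈ range q, ((-1) ^ j * ((1 : (ZMod p)⟦X⟧)) ^ (q - j) * ((q.choose j : ℕ) : (ZMod p)⟦X⟧)) =
      -(-1) ^ q := by
    have h7 := add_pow (-1 : (ZMod p)⟦X⟧) 1 q
    rw [neg_add_cancel, zero_pow hq0, Finset.sum_range_succ, Nat.sub_self, pow_zero,
      Nat.choose_self, Nat.cast_one, mul_one, mul_one] at h7
    linear_combination -h7
  rw [h6] at h1
  have h7 : (-(-1 : (ZMod p)⟦X⟧) ^ q * (-1) ^ q) = -1 := by
    rw [neg_mul, ← pow_add, ← two_mul, pow_mul]
    simp
  rw [h7] at h1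
  linear_combination h1

end char

theorem al : Pool.Agent.Q254.Theta.S_alpha := by
  intro p _ g X0 lam hg hX0 f
  have hp : p.Prime := Fact.out
  obtain ⟨q, hq⟩ : ∃ q, q = p - 1 := ⟨_, rfl⟩
  have hq1 : p = q + 1 := by have := hp.pos; omega
  have hq0 : q ≠ 0 := by have := hp.two_le; omega
  have hg0 : g ≠ 0 := by
    rintro rfl
    rw [map_zero] at hg
    exact zero_ne_one hg
  have h1 : (dl g)^[p] X0 = -(C lam * (X ^ q * (dl g)^[p] X - g ^ p)) := by
    have h2 : (dl g)^[p] X0 = (dl g)^[q] (dl g X0) := by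
      rw [← Function.iterate_succ_apply, Nat.succ_eq_add_one, ← hq1]
    have h3 : dl g X0 = g ^ p - C lam * (X ^ (p - 1) * g) := by
      unfold dl
      rw [hX0]
      ring
    have h4 : (dl g)^[q] (g ^ p) = 0 := by
      obtain ⟨s, hs⟩ : ∃ s, q = s + 1 := ⟨q - 1, by omega⟩
      rw [hs, Function.iterate_succ_apply, dl_pow]
      have h5 : ((p : ℕ) : (ZMod p)⟦X⟧) = 0 := CharP.cast_eq_zero _ _
      rw [h5, zero_mul, zero_mul, it_zero]
    rw [h2, h3, it_sub, h4, it_C_mul, hq, itp_sub_one]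
    ring
  have h2 : g * (dl g)^[p] X0 = (dl g)^[p] X * (g ^ p - C lam * (X ^ q * g)) := by
    rw [itp_eq]
    calc g * ((dl g)^[p] X * derivative (ZMod p) X0) =
        (dl g)^[p] X * (g * derivative (ZMod p) X0) := by ring
      _ = _ := by rw [hX0, hq]; ring
  rw [h1] at h2
  have h3 : g ^ p * (dl g)^[p] X = g ^ p * (C lam * g) := by
    linear_combination -h2
  have h4 := mul_left_cancel₀ (pow_ne_zero p hg0) h3
  rw [itp_eq, h4]
  unfold dl
  ring

end Pool.Agent.Q146.Theta
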